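import Mathlib
import Pool.Agent.Tpd.Defs
import Pool.Agent.Tpd.Main

/-!
# A nearly linear lower bound for the threshold Prague dimension of bounded-degree graphs
-/

namespace Pool.Agent.Results.MP_a7b5fd_co.NearlyLinear

open Pool.Agent.Tpd

/-- If `1 ≤ Δ ≤ n / 4096` then `T(n, Δ) ≥ Δ ln(n/Δ) / (200 ln(Δ ln(n/Δ) + 2))`; if
`n / 4096 < Δ < n` and `n ≥ 4097` then `T(n, Δ) ≥ n / (10^6 ln n)`. -/
theorem result :
    (∀ n Δ : ℕ, 1 ≤ Δ → 4096 * Δ ≤ n →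
      (Δ : ℝ) * Real.log (n / Δ) / (200 * Real.log (Δ * Real.log (n / Δ) + 2)) ≤ T n Δ) ∧
    (∀ n Δ : ℕ, 4097 ≤ n → n < 4096 * Δ → Δ < n →
      (n : ℝ) / (1000000 * Real.log n) ≤ T n Δ) :=
  ⟨fun _ _ h1 h2 => sparse h1 h2, fun _ _ h1 h2 h3 => dense h1 h2 h3⟩

end Pool.Agent.Results.MP_a7b5fd_co.NearlyLinear
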